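import Pool.Agent.Helper68.DS.Goals2

set_option autoImplicit false

/-!
# MP_52cd29_ag, packet DEGEN: degeneration of `H` to its leading pieces
-/

namespace Pool.Agent.Helper72.DS

open MvPolynomial Pool.Agent.Helper68.DS

/-- Scaling of the last coordinate. -/
noncomputable def sc (s : ℂ) : MvPolynomial (Fin 3) ℂ →ₐ[ℂ] MvPolynomial (Fin 3) ℂ :=
  sb (Matrix.diagonal ![1, 1, s])

theorem sc_X0 (s : ℂ) : sc s (X 0) = X 0 := by
  simp [sc, sb, lf, Fin.sum_univ_three, Matrix.diagonal]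

theorem sc_X1 (s : ℂ) : sc s (X 1) = X 1 := by
  simp [sc, sb, lf, Fin.sum_univ_three, Matrix.diagonal]

theorem sc_X2 (s : ℂ) : sc s (X 2) = s • X 2 := by
  simp [sc, sb, lf, Fin.sum_univ_three, Matrix.diagonal, Algebra.smul_def, algebraMap_eq]

theorem z0_X0 : z0 (X 0) = X 0 := by simp [z0]

theorem z0_X1 : z0 (X 1) = X 1 := by simp [z0]

theorem z0_X2 : z0 (X 2) = 0 := by simp [z0]

theorem z0_sc (s : ℂ) (p : MvPolynomial (Fin 3) ℂ) : z0 (sc s p) = z0 p := by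
  have h : z0.comp (sc s) = z0 := by
    apply algHom_ext
    intro i
    fin_cases i
    · simp only [AlgHom.comp_apply, Fin.zero_eta, sc_X0]
    · simp only [AlgHom.comp_apply, Fin.mk_one, sc_X1]
    · simp only [AlgHom.comp_apply, Fin.reduceFinMk, sc_X2, map_smul, z0_X2, smul_zero]
  exact congrArg (fun f => f p) h

theorem sc_zero (p : MvPolynomial (Fin 3) ℂ) : sc 0 p = up (z0 p) := by
  have h : sc 0 = up.comp z0 := by
    apply algHom_ext
    intro i
    fin_cases i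
    · simp only [AlgHom.comp_apply, Fin.zero_eta, sc_X0, z0_X0]
      simp [up]
    · simp only [AlgHom.comp_apply, Fin.mk_one, sc_X1, z0_X1]
      simp [up]
    · simp only [AlgHom.comp_apply, Fin.reduceFinMk, sc_X2, z0_X2, map_zero, zero_smul]
  exact congrArg (fun f => f p) h

theorem sc_one (p : MvPolynomial (Fin 3) ℂ) : sc 1 p = p := by
  have h : sc 1 = AlgHom.id ℂ (MvPolynomial (Fin 3) ℂ) := by
    apply algHom_ext
    intro i
    fin_cases i
    · simp only [AlgHom.id_apply, Fin.zero_eta, sc_X0]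
    · simp only [AlgHom.id_apply, Fin.mk_one, sc_X1]
    · simp only [AlgHom.id_apply, Fin.reduceFinMk, sc_X2, one_smul]
  exact congrArg (fun f => f p) h

theorem isPolyMap_sc (h1 : PM_stmt) (p : MvPolynomial (Fin 3) ℂ) :
    IsPolyMap fun s => sc s p := by
  induction p using MvPolynomial.induction_on with
  | C a =>
    have h : (fun s => sc s (C a)) = fun _ : ℂ => (C a : MvPolynomial (Fin 3) ℂ) := by
      funext s
      rw [← algebraMap_eq]
      exact (sc s).commutes a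
    rw [h]
    exact h1.const _ _
  | add p q hp hq =>
    have h : (fun s => sc s (p + q)) = fun s => sc s p + sc s q := by
      funext s; exact map_add _ _ _
    rw [h]
    exact h1.add _ _ _ hp hq
  | mul_X p i hp =>
    have h : (fun s => sc s (p * X i)) = fun s => sc s p * sc s (X i) := by
      funext s; exact map_mul _ _ _
    rw [h]
    refine h1.mul _ _ _ hp ?_
    fin_cases i
    · simp only [Fin.zero_eta, sc_X0]
      exact h1.const _ _
    · simp only [Fin.mk_one, sc_X1]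
      exact h1.const _ _
    · simp only [Fin.reduceFinMk, sc_X2]
      have h2 := h1.line (MvPolynomial (Fin 3) ℂ) 0 (X 2)
      simpa using h2

theorem dvd_sub_sc (p : MvPolynomial (Fin 3) ℂ) : (X 2 : MvPolynomial (Fin 3) ℂ) ∣ p - sc 0 p := by
  induction p using MvPolynomial.induction_on with
  | C a =>
    have h : sc 0 (C a) = C a := by
      rw [← algebraMap_eq]
      exact (sc 0).commutes a
    rw [h, sub_self]
    exact dvd_zero _
  | add p q hp hq =>
    have h : p + q - sc 0 (p + q) = (p - sc 0 p) + (q - sc 0 q) := by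
      rw [map_add]; ring
    rw [h]
    exact dvd_add hp hq
  | mul_X p i hp =>
    rw [map_mul]
    fin_cases i
    · simp only [Fin.zero_eta, sc_X0]
      rw [← sub_mul]
      exact Dvd.dvd.mul_right hp _
    · simp only [Fin.mk_one, sc_X1]
      rw [← sub_mul]
      exact Dvd.dvd.mul_right hp _
    · simp only [Fin.reduceFinMk, sc_X2, zero_smul, mul_zero, sub_zero]
      exact Dvd.intro_left p rfl

theorem dvd_of_z0 {p : MvPolynomial (Fin 3) ℂ} (h : z0 p = 0) :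
    ∃ q, p = X 2 * q := by
  have h1 := dvd_sub_sc p
  rw [sc_zero, h, map_zero, sub_zero] at h1
  exact h1

theorem hom_of_mul {n : ℕ} {q : MvPolynomial (Fin 3) ℂ}
    (h : (X 2 * q : MvPolynomial (Fin 3) ℂ).IsHomogeneous (n + 1)) : q.IsHomogeneous n := by
  intro d hd
  have h2 : coeff (d + Finsupp.single 2 1) (X 2 * q : MvPolynomial (Fin 3) ℂ) ≠ 0 := by
    rw [mul_comm, coeff_mul_X]
    exact hd
  have h3 := h h2
  rw [map_add] at h3
  have h4 : (Finsupp.weight (1 : Fin 3 → ℕ)) (Finsupp.single 2 1) = 1 := by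
    simp [Finsupp.weight_single]
  rw [h4] at h3
  omega

theorem zero_of_mul {q : MvPolynomial (Fin 3) ℂ}
    (h : (X 2 * q : MvPolynomial (Fin 3) ℂ).IsHomogeneous 0) : q = 0 := by
  ext d
  rw [coeff_zero]
  by_contra hd
  have h2 : coeff (d + Finsupp.single 2 1) (X 2 * q : MvPolynomial (Fin 3) ℂ) ≠ 0 := by
    rw [mul_comm, coeff_mul_X]
    exact hd
  have h3 := h h2
  rw [map_add] at h3
  have h4 : (Finsupp.weight (1 : Fin 3 → ℕ)) (Finsupp.single 2 1) = 1 := by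
    simp [Finsupp.weight_single]
  rw [h4] at h3
  omega

/-- A linear section of `z0` over `JJ H k j`. -/
theorem exists_section (H : Submodule ℂ (MvPolynomial (Fin 3) ℂ)) (k j : ℕ) :
    ∃ L : ↥(JJ H k j) →ₗ[ℂ] MvPolynomial (Fin 3) ℂ, ∀ g : ↥(JJ H k j),
      (X 2 : MvPolynomial (Fin 3) ℂ) ^ (k - j) * L g ∈ H ∧ L g ∈ HS 3 j ∧
        z0 (L g) = (g : MvPolynomial (Fin 2) ℂ) := by
  obtain ⟨L, hL⟩ := LinearMap.exists_rightInverse_of_surjective
    (z0.toLinearMap.submoduleMap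
      ((H.comap (LinearMap.mulLeft ℂ ((X 2 : MvPolynomial (Fin 3) ℂ) ^ (k - j)))) ⊓ HS 3 j))
    (LinearMap.range_eq_top.2 (LinearMap.submoduleMap_surjective _ _))
  refine ⟨((H.comap (LinearMap.mulLeft ℂ ((X 2 : MvPolynomial (Fin 3) ℂ) ^ (k - j)))) ⊓
    HS 3 j).subtype ∘ₗ L, fun g => ?_⟩
  have h1 := (L g).2
  refine ⟨h1.1, h1.2, ?_⟩
  have h2 := LinearMap.congr_fun hL g
  exact congrArg Subtype.val h2

/-- The sum of the curves. -/
noncomputable def Phi {k : ℕ} {J : Fin (k + 1) → Submodule ℂ (MvPolynomial (Fin 2) ℂ)}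
    (L : ∀ j, ↥(J j) →ₗ[ℂ] MvPolynomial (Fin 3) ℂ) (s : ℂ) :
    (∀ j, ↥(J j)) →ₗ[ℂ] MvPolynomial (Fin 3) ℂ :=
  ∑ j : Fin (k + 1), (LinearMap.mulLeft ℂ ((X 2 : MvPolynomial (Fin 3) ℂ) ^ (k - (j : ℕ)))) ∘ₗ
    (sc s).toLinearMap ∘ₗ L j ∘ₗ LinearMap.proj j

theorem Phi_apply {k : ℕ} {J : Fin (k + 1) → Submodule ℂ (MvPolynomial (Fin 2) ℂ)}
    (L : ∀ j, ↥(J j) →ₗ[ℂ] MvPolynomial (Fin 3) ℂ) (s : ℂ) (g : ∀ j, ↥(J j)) :
    Phi L s g = ∑ j : Fin (k + 1), (X 2 : MvPolynomial (Fin 3) ℂ) ^ (k - (j : ℕ)) * sc s (L j (g j)) := by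
  simp [Phi, LinearMap.sum_apply]

theorem Phi_inj {k : ℕ} {J : Fin (k + 1) → Submodule ℂ (MvPolynomial (Fin 2) ℂ)}
    (L : ∀ j, ↥(J j) →ₗ[ℂ] MvPolynomial (Fin 3) ℂ)
    (hL : ∀ j (g : ↥(J j)), z0 (L j g) = (g : MvPolynomial (Fin 2) ℂ)) (s : ℂ) :
    Function.Injective (Phi L s) := by
  rw [← LinearMap.ker_eq_bot, LinearMap.ker_eq_bot']
  intro g hg
  rw [Phi_apply] at hg
  -- downward induction
  have key : ∀ n : ℕ, ∀ j : Fin (k + 1), k - (j : ℕ) < n → g j = 0 := by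
    intro n
    induction n with
    | zero => intro j hj; omega
    | succ n ih =>
      intro j hj
      by_cases hjn : k - (j : ℕ) < n
      · exact ih j hjn
      have hjn' : k - (j : ℕ) = n := by omega
      have h1 : ∑ j : Fin (k + 1), (X 2 : MvPolynomial (Fin 3) ℂ) ^ (k - (j : ℕ)) * sc s (L j (g j)) =
          X 2 ^ n * (sc s (L j (g j)) + X 2 * ∑ i ∈ Finset.univ.erase j,
            (X 2 : MvPolynomial (Fin 3) ℂ) ^ (k - (i : ℕ) - n - 1) * sc s (L i (g i))) := by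
        rw [← Finset.add_sum_erase _ _ (Finset.mem_univ j), hjn', mul_add]
        congr 1
        rw [Finset.mul_sum, Finset.mul_sum]
        refine Finset.sum_congr rfl fun i hi => ?_
        have hij : i ≠ j := Finset.ne_of_mem_erase hi
        by_cases hin : k - (i : ℕ) < n
        · rw [ih i hin, map_zero, map_zero, mul_zero, mul_zero, mul_zero, mul_zero]
        · have hne : k - (i : ℕ) ≠ n := by
            intro h
            apply hij
            apply Fin.ext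
            have h3 := i.2
            have h4 := j.2
            omega
          have h5 : k - (i : ℕ) = n + 1 + (k - (i : ℕ) - n - 1) := by omega
          rw [← mul_assoc, ← mul_assoc, ← pow_succ, ← pow_add, ← h5]
      rw [h1] at hg
      have h2 : (X 2 : MvPolynomial (Fin 3) ℂ) ^ n ≠ 0 := pow_ne_zero _ (X_ne_zero _)
      have h3 := (mul_eq_zero.1 hg).resolve_left h2
      have h4 := congrArg z0 h3
      rw [map_add, map_mul, z0_X2, zero_mul, add_zero, map_zero, z0_sc, hL] at h4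
      exact Subtype.ext h4
  funext j
  exact key (k + 1) j (by omega)

theorem mem_range_one {k : ℕ} {H : Submodule ℂ (MvPolynomial (Fin 3) ℂ)}
    (L : ∀ j : Fin (k + 1), ↥(JJ H k (j : ℕ)) →ₗ[ℂ] MvPolynomial (Fin 3) ℂ)
    (hL : ∀ (j : Fin (k + 1)) (g : ↥(JJ H k (j : ℕ))),
      (X 2 : MvPolynomial (Fin 3) ℂ) ^ (k - (j : ℕ)) * L j g ∈ H ∧ L j g ∈ HS 3 (j : ℕ) ∧
        z0 (L j g) = (g : MvPolynomial (Fin 2) ℂ)) (i : ℕ) (hi : i ≤ k) :
    ∀ h' ∈ HS 3 i, (X 2 : MvPolynomial (Fin 3) ℂ) ^ (k - i) * h' ∈ H →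
      (X 2 : MvPolynomial (Fin 3) ℂ) ^ (k - i) * h' ∈ LinearMap.range (Phi L 1) := by
  induction i with
  | zero =>
    intro h' hh' hH'
    have hmem : z0 h' ∈ JJ H k ((⟨0, by omega⟩ : Fin (k + 1)) : ℕ) :=
      ⟨h', ⟨hH', hh'⟩, rfl⟩
    have h1 := hL ⟨0, by omega⟩ ⟨z0 h', hmem⟩
    have h2 : z0 (h' - L ⟨0, by omega⟩ ⟨z0 h', hmem⟩) = 0 := by
      rw [map_sub, h1.2.2, sub_self]
    obtain ⟨q, hq⟩ := dvd_of_z0 h2
    have h3 : (X 2 * q : MvPolynomial (Fin 3) ℂ).IsHomogeneous 0 := by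
      rw [← hq]
      exact (HS 3 0).sub_mem hh' h1.2.1
    rw [zero_of_mul h3, mul_zero, sub_eq_zero] at hq
    refine ⟨Pi.single ⟨0, by omega⟩ ⟨z0 h', hmem⟩, ?_⟩
    rw [Phi_apply, Finset.sum_eq_single_of_mem (⟨0, by omega⟩ : Fin (k + 1)) (Finset.mem_univ _)]
    · rw [sc_one, Pi.single_eq_same, ← hq]
    · intro b _ hb
      rw [Pi.single_eq_of_ne hb, map_zero, map_zero, mul_zero]
  | succ i ih =>
    intro h' hh' hH'
    have hmem : z0 h' ∈ JJ H k ((⟨i + 1, by omega⟩ : Fin (k + 1)) : ℕ) :=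
      ⟨h', ⟨hH', hh'⟩, rfl⟩
    have h1 := hL ⟨i + 1, by omega⟩ ⟨z0 h', hmem⟩
    have h2 : z0 (h' - L ⟨i + 1, by omega⟩ ⟨z0 h', hmem⟩) = 0 := by
      rw [map_sub, h1.2.2, sub_self]
    obtain ⟨q, hq⟩ := dvd_of_z0 h2
    have h3 : (X 2 * q : MvPolynomial (Fin 3) ℂ).IsHomogeneous (i + 1) := by
      rw [← hq]
      exact (HS 3 (i + 1)).sub_mem hh' h1.2.1
    have h4 := hom_of_mul h3
    have h5 : (X 2 : MvPolynomial (Fin 3) ℂ) ^ (k - i) * q =
        X 2 ^ (k - (i + 1)) * h' - X 2 ^ (k - (i + 1)) * L ⟨i + 1, by omega⟩ ⟨z0 h', hmem⟩ := by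
      rw [← mul_sub, hq, ← mul_assoc, ← pow_succ]
      congr 2
      omega
    have h6 : (X 2 : MvPolynomial (Fin 3) ℂ) ^ (k - i) * q ∈ H := by
      rw [h5]
      exact H.sub_mem hH' h1.1
    have h7 := ih (by omega) q h4 h6
    have h8 : (X 2 : MvPolynomial (Fin 3) ℂ) ^ (k - (i + 1)) *
        L ⟨i + 1, by omega⟩ ⟨z0 h', hmem⟩ ∈ LinearMap.range (Phi L 1) := by
      refine ⟨Pi.single ⟨i + 1, by omega⟩ ⟨z0 h', hmem⟩, ?_⟩
      rw [Phi_apply, Finset.sum_eq_single_of_mem (⟨i + 1, by omega⟩ : Fin (k + 1))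
        (Finset.mem_univ _)]
      · rw [sc_one, Pi.single_eq_same]
      · intro b _ hb
        rw [Pi.single_eq_of_ne hb, map_zero, map_zero, mul_zero]
    have h9 : (X 2 : MvPolynomial (Fin 3) ℂ) ^ (k - (i + 1)) * h' =
        X 2 ^ (k - i) * q + X 2 ^ (k - (i + 1)) * L ⟨i + 1, by omega⟩ ⟨z0 h', hmem⟩ := by
      rw [h5]; ring
    rw [h9]
    exact (LinearMap.range (Phi L 1)).add_mem h7 h8

theorem range_one {k : ℕ} {H : Submodule ℂ (MvPolynomial (Fin 3) ℂ)} (hH : H ≤ HS 3 k)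
    (L : ∀ j : Fin (k + 1), ↥(JJ H k (j : ℕ)) →ₗ[ℂ] MvPolynomial (Fin 3) ℂ)
    (hL : ∀ (j : Fin (k + 1)) (g : ↥(JJ H k (j : ℕ))),
      (X 2 : MvPolynomial (Fin 3) ℂ) ^ (k - (j : ℕ)) * L j g ∈ H ∧ L j g ∈ HS 3 (j : ℕ) ∧
        z0 (L j g) = (g : MvPolynomial (Fin 2) ℂ)) :
    LinearMap.range (Phi L 1) = H := by
  apply le_antisymm
  · rintro _ ⟨g, rfl⟩
    rw [Phi_apply]
    refine H.sum_mem fun j _ => ?_
    rw [sc_one]
    exact (hL j (g j)).1
  · intro h hh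
    have h1 := mem_range_one L hL k le_rfl h (hH hh) (by simpa using hh)
    simpa using h1

theorem range_zero {k : ℕ} {H : Submodule ℂ (MvPolynomial (Fin 3) ℂ)}
    (L : ∀ j : Fin (k + 1), ↥(JJ H k (j : ℕ)) →ₗ[ℂ] MvPolynomial (Fin 3) ℂ)
    (hL : ∀ (j : Fin (k + 1)) (g : ↥(JJ H k (j : ℕ))),
        z0 (L j g) = (g : MvPolynomial (Fin 2) ℂ)) :
    LinearMap.range (Phi L 0) ≤ JH k (JJ H k) := by
  rintro _ ⟨g, rfl⟩
  rw [Phi_apply]
  refine Submodule.sum_mem _ fun j _ => ?_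
  rw [sc_zero, hL]
  refine Submodule.mem_iSup_of_mem j ?_
  exact ⟨(g j : MvPolynomial (Fin 2) ℂ), (g j).2, rfl⟩

theorem map_sc_le {k : ℕ} {H : Submodule ℂ (MvPolynomial (Fin 3) ℂ)} (hH : H ≤ HS 3 k)
    (L : ∀ j : Fin (k + 1), ↥(JJ H k (j : ℕ)) →ₗ[ℂ] MvPolynomial (Fin 3) ℂ)
    (hL : ∀ (j : Fin (k + 1)) (g : ↥(JJ H k (j : ℕ))),
      (X 2 : MvPolynomial (Fin 3) ℂ) ^ (k - (j : ℕ)) * L j g ∈ H ∧ L j g ∈ HS 3 (j : ℕ) ∧
        z0 (L j g) = (g : MvPolynomial (Fin 2) ℂ)) (s : ℂ) :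
    H.map (sc s).toLinearMap ≤ LinearMap.range (Phi L s) := by
  rintro _ ⟨h, hh, rfl⟩
  have hh' : h ∈ LinearMap.range (Phi L 1) := by
    rw [range_one hH L hL]; exact hh
  obtain ⟨g, rfl⟩ := hh'
  refine ⟨fun j => s ^ (k - (j : ℕ)) • g j, ?_⟩
  rw [Phi_apply, Phi_apply]
  show _ = sc s _
  rw [map_sum]
  refine Finset.sum_congr rfl fun j _ => ?_
  rw [sc_one, map_mul, map_pow, sc_X2, map_smul, map_smul, smul_pow, smul_mul_assoc,
    mul_smul_comm]

theorem DEGEN (h1 : PM_stmt) (h2 : SCK_stmt) (h3 : DIM_stmt) (h4 : TRANS_stmt) :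
    DEGEN_stmt := by
  intro k H hH
  have hfd : ∀ j : ℕ, FiniteDimensional ℂ ↥(JJ H k j) := by
    intro j
    have := (h3 2 j).1
    have : FiniteDimensional ℂ ↥((H.comap (LinearMap.mulLeft ℂ
      ((X 2 : MvPolynomial (Fin 3) ℂ) ^ (k - j)))) ⊓ HS 3 j) :=
      Submodule.finiteDimensional_of_le inf_le_right
    unfold JJ
    infer_instance
  choose L hL using fun j : Fin (k + 1) => exists_section H k (j : ℕ)
  have hr1 := range_one hH L hL
  have hLz : ∀ (j : Fin (k + 1)) (g : ↥(JJ H k (j : ℕ))),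
        z0 (L j g) = (g : MvPolynomial (Fin 2) ℂ) := fun j g => (hL j g).2.2
  have hinj : ∀ s, Function.Injective (Phi L s) := fun s => Phi_inj L hLz s
  refine ⟨?_, ?_⟩
  · have e1 : Module.finrank ℂ (∀ j : Fin (k + 1), ↥(JJ H k (j : ℕ))) =
        Module.finrank ℂ ↥(LinearMap.range (Phi L 1)) :=
      (LinearMap.finrank_range_of_inj (hinj 1)).symm
    rw [hr1] at e1
    rw [← e1, Module.finrank_pi_fintype, Finset.sum_range]
  · intro k' r lam hr
    -- the family of maps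
    set T : ℂ → ((Fin k' → Fin 3 → ℂ) × (∀ j : Fin (k + 1), ↥(JJ H k (j : ℕ)))) →ₗ[ℂ]
      MvPolynomial (Fin 3) ℂ := fun s =>
        (Theta lam) ∘ₗ LinearMap.fst ℂ _ _ - (Phi L s) ∘ₗ LinearMap.snd ℂ _ _ with hT
    have hTp : ∀ v, IsPolyMap fun t => T t v := by
      intro v
      have h5 : (fun t => T t v) = fun t => Theta lam v.1 -
          ∑ j : Fin (k + 1), (X 2 : MvPolynomial (Fin 3) ℂ) ^ (k - (j : ℕ)) *
            sc t (L j (v.2 j)) := by
        funext t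
        rw [← Phi_apply]
        simp [hT]
      rw [h5]
      refine h1.sub _ _ _ (h1.const _ _) ?_
      refine h1.sum _ _ _ _ fun j _ => ?_
      exact h1.mul _ _ _ (h1.const _ _) (isPolyMap_sc h1 _)
    have hfin := h2 _ _ T hTp 0
    obtain ⟨s, hs⟩ := ((Set.finite_singleton (0 : ℂ)).union hfin).infinite_compl.nonempty
    rw [Set.mem_compl_iff, Set.mem_union, not_or] at hs
    obtain ⟨hs0, hs1⟩ := hs
    have hs0' : s ≠ 0 := hs0
    have hs1' : Module.finrank ℂ ↥(LinearMap.ker (T s)) ≤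
        Module.finrank ℂ ↥(LinearMap.ker (T 0)) := by
      have h6 : ¬ (Module.finrank ℂ ↥(LinearMap.ker (T 0)) <
        Module.finrank ℂ ↥(LinearMap.ker (T s))) := hs1
      omega
    -- the kernel at zero
    have hk0 : Module.finrank ℂ ↥(LinearMap.ker (T 0)) ≤
        Module.finrank ℂ ↥(KH lam (JH k (JJ H k))) := by
      have hmap : ∀ x : ↥(LinearMap.ker (T 0)), x.1.1 ∈ KH lam (JH k (JJ H k)) := by
        intro x
        have hx := x.2
        rw [LinearMap.mem_ker] at hx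
        have hx' : Theta lam x.1.1 - Phi L 0 x.1.2 = 0 := hx
        rw [sub_eq_zero] at hx'
        show Theta lam x.1.1 ∈ JH k (JJ H k)
        rw [hx']
        exact range_zero L hLz ⟨_, rfl⟩
      let f : ↥(LinearMap.ker (T 0)) →ₗ[ℂ] ↥(KH lam (JH k (JJ H k))) :=
        ((LinearMap.fst ℂ _ _) ∘ₗ (LinearMap.ker (T 0)).subtype).codRestrict _ hmap
      refine LinearMap.finrank_le_finrank_of_injective (f := f) ?_
      intro x y hxy
      have hx1 : x.1.1 = y.1.1 := congrArg Subtype.val hxy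
      have hx2 := x.2
      rw [LinearMap.mem_ker] at hx2
      have hx' : Theta lam x.1.1 - Phi L 0 x.1.2 = 0 := hx2
      have hy2 := y.2
      rw [LinearMap.mem_ker] at hy2
      have hy' : Theta lam y.1.1 - Phi L 0 y.1.2 = 0 := hy2
      rw [sub_eq_zero] at hx' hy'
      have hx3 : x.1.2 = y.1.2 := hinj 0 (by rw [← hx', ← hy', hx1])
      apply Subtype.ext
      exact Prod.ext hx1 hx3
    have hks : Module.finrank ℂ ↥(KH lam (H.map (sc s).toLinearMap)) ≤
        Module.finrank ℂ ↥(LinearMap.ker (T s)) := by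
      have hle : KH lam (H.map (sc s).toLinearMap) ≤
          (LinearMap.ker (T s)).map (LinearMap.fst ℂ _ _) := by
        intro ξ hξ
        have hξ1 : Theta lam ξ ∈ H.map (sc s).toLinearMap := hξ
        obtain ⟨g, hg⟩ := map_sc_le hH L hL s hξ1
        refine ⟨(ξ, g), ?_, rfl⟩
        show (ξ, g) ∈ LinearMap.ker (T s)
        rw [LinearMap.mem_ker]
        simp [hT, hg]
      exact (Submodule.finrank_mono hle).trans (Submodule.finrank_map_le _ _)
    have hdet : IsUnit (Matrix.diagonal ![1, 1, s] : Matrix (Fin 3) (Fin 3) ℂ).det := by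
      rw [Matrix.det_diagonal]
      simp [Fin.prod_univ_three, hs0']
    have h7 := ((h4 (Matrix.diagonal ![1, 1, s]) hdet).2.2.2 H).2 k' r lam
    exact h7 (hks.trans (hs1'.trans (hk0.trans hr)))

end Pool.Agent.Helper72.DS
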